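import Pool.Agent.Q16.QM.Star

set_option autoImplicit false
set_option linter.unusedSectionVars false
set_option linter.unusedVariables false

/-! # Project QM, job C1: pull-back of covers -/

namespace Pool.Agent.Q16.QM

open MvPolynomial
open Pool.Agent.Q57.MC (Chart Same frac Same.map)
open Pool.Agent.Q57.QM

/-! ### Minors -/

section

variable {n b : ℕ}

/-- a matrix with a left inverse has a maximal minor which is not zero -/
theorem exists_minor (A : Matrix (Fin b) (Fin n) ℂ) (P : Matrix (Fin n) (Fin b) ℂ)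
    (h : (A * P).det ≠ 0) : ∃ s : Fin b → Fin n, (Matrix.of fun u t => P (s u) t).det ≠ 0 := by
  classical
  by_contra hcon
  push Not at hcon
  apply h
  have h1 : (A * P).det = Matrix.detRowAlternating (fun u => ∑ l, A u l • P l) := by
    change Matrix.detRowAlternating (A * P) = _
    congr 1
    funext u t
    rw [Matrix.mul_apply, Finset.sum_apply]
    rfl
  rw [h1]
  have h2 := (Matrix.detRowAlternating (n := Fin b) (R := ℂ)).toMultilinearMap.map_sum
    (fun (u : Fin b) (l : Fin n) => A u l • P l)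
  change Matrix.detRowAlternating (fun u => ∑ l, A u l • P l) = _ at h2
  rw [h2]
  refine Finset.sum_eq_zero fun s _ => ?_
  have h3 := (Matrix.detRowAlternating (n := Fin b) (R := ℂ)).toMultilinearMap.map_smul_univ
    (fun u => A u (s u)) (fun u => P (s u))
  refine h3.trans ?_
  have h4 : (Matrix.detRowAlternating (n := Fin b) (R := ℂ)).toMultilinearMap
      (fun u => P (s u)) = (Matrix.of fun u t => P (s u) t).det := rfl
  rw [h4, hcon s, smul_zero]

end

/-- **Minors of a product.** -/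
theorem minor_mul {n c b : ℕ} (J1 : Matrix (Fin n) (Fin c) ℂ) (J2 : Matrix (Fin c) (Fin b) ℂ)
    (s1 : Fin c → Fin n) (s2 : Fin b → Fin c) (h1 : (Matrix.of fun u t => J1 (s1 u) t).det ≠ 0)
    (h2 : (Matrix.of fun u t => J2 (s2 u) t).det ≠ 0) :
    ∃ s : Fin b → Fin n, (Matrix.of fun u t => (J1 * J2) (s u) t).det ≠ 0 := by
  classical
  set M1 : Matrix (Fin c) (Fin c) ℂ := Matrix.of fun u t => J1 (s1 u) t with hM1
  set M2 : Matrix (Fin b) (Fin b) ℂ := Matrix.of fun u t => J2 (s2 u) t with hM2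
  set E1 : Matrix (Fin c) (Fin n) ℂ := Matrix.of fun u i => if i = s1 u then 1 else 0 with hE1
  set E2 : Matrix (Fin b) (Fin c) ℂ := Matrix.of fun u i => if i = s2 u then 1 else 0 with hE2
  have e1 : E1 * J1 = M1 := by
    ext u t
    rw [Matrix.mul_apply]
    simp [hE1, hM1]
  have e2 : E2 * J2 = M2 := by
    ext u t
    rw [Matrix.mul_apply]
    simp [hE2, hM2]
  have u1 : IsUnit M1.det := isUnit_iff_ne_zero.2 h1
  have u2 : IsUnit M2.det := isUnit_iff_ne_zero.2 h2
  refine exists_minor (M2⁻¹ * (E2 * (M1⁻¹ * E1))) (J1 * J2) ?_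
  have e3 : M2⁻¹ * (E2 * (M1⁻¹ * E1)) * (J1 * J2) = 1 := by
    calc M2⁻¹ * (E2 * (M1⁻¹ * E1)) * (J1 * J2) = M2⁻¹ * (E2 * (M1⁻¹ * (E1 * J1) * J2)) := by
          simp only [Matrix.mul_assoc]
      _ = 1 := by
          rw [e1, Matrix.nonsing_inv_mul M1 u1, Matrix.one_mul, e2, Matrix.nonsing_inv_mul M2 u2]
  rw [e3, Matrix.det_one]
  exact one_ne_zero

/-! ### The charts -/

section

variable {n c : ℕ}

/-- a bound for the degrees of a chart -/
noncomputable def dg (B : Chart (Fin c)) : ℕ := B.w.totalDegree + ∑ t, (B.a t).totalDegree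

theorem dg_w (B : Chart (Fin c)) : B.w.totalDegree ≤ dg B := Nat.le_add_right _ _

theorem dg_a (B : Chart (Fin c)) (t : Fin B.c) : (B.a t).totalDegree ≤ dg B :=
  (Finset.single_le_sum (f := fun t => (B.a t).totalDegree) (fun _ _ => Nat.zero_le _)
    (Finset.mem_univ t)).trans (Nat.le_add_left _ _)

/-- the new chart -/
noncomputable def nc (a : Fin c → MvPolynomial (Fin n) ℂ) (w : MvPolynomial (Fin n) ℂ)
    (B : Chart (Fin c)) (s : Fin B.c → Fin n) : Chart (Fin n) where
  c := B.c
  r := B.r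
  a := fun t => w * star a w (dg B) (B.a t)
  w := w * star a w (dg B) B.w
  s := s
  h := B.h

theorem nc_fits {r r' : ℕ} {f : Fin r → MvPolynomial (Fin n) ℂ}
    {h : Fin r' → MvPolynomial (Fin c) ℂ} {a : Fin c → MvPolynomial (Fin n) ℂ}
    {w : MvPolynomial (Fin n) ℂ} (hs : Same f h a w) (B : Chart (Fin c)) (hB : B.Fits h)
    (s : Fin B.c → Fin n) : (nc a w B s).Fits f := by
  set w' : MvPolynomial (Fin n) ℂ := w * star a w (dg B) B.w with hw'
  set S : Type := Localization.Away w' with hS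
  set φ : MvPolynomial (Fin n) ℂ →ₐ[ℂ] Localization.Away w' :=
    IsScalarTower.toAlgHom ℂ (MvPolynomial (Fin n) ℂ) (Localization.Away w') with hφ
  have hφP : ∀ P, φ P = algebraMap (MvPolynomial (Fin n) ℂ) (Localization.Away w') P :=
    fun P => rfl
  set i' : Localization.Away w' := IsLocalization.Away.invSelf w' with hi'
  have hinv : φ w' * i' = 1 := by
    rw [hφP]
    exact IsLocalization.Away.mul_invSelf (S := Localization.Away w') w'
  set v : Localization.Away w' := φ (star a w (dg B) B.w) * i' with hv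
  have hvw : φ w * v = 1 := by
    rw [hv, ← mul_assoc, ← map_mul]
    exact hinv
  have k1 := hs.map φ v hvw
  set φ2 : MvPolynomial (Fin c) ℂ →ₐ[ℂ] Localization.Away w' := aeval (fun t => φ (a t) * v)
    with hφ2
  have hst : ∀ q : MvPolynomial (Fin c) ℂ, q.totalDegree ≤ dg B →
      φ (star a w (dg B) q) = φ w ^ dg B * φ2 q := fun q hq => star_spec φ a w v hvw (dg B) q hq
  set v2 : Localization.Away w' := φ w ^ dg B * φ w * i' with hv2
  have hvw2 : φ2 B.w * v2 = 1 := by
    rw [hv2]
    have h1 : φ w * φ (star a w (dg B) B.w) * i' = 1 := by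
      rw [← map_mul]
      exact hinv
    rw [hst B.w (dg_w B)] at h1
    rw [← h1]
    ring
  have k2 := Same.map (hB : Same h B.h B.a B.w) φ2 v2 hvw2
  have k3 : (fun k => φ (f k)) =
      fun j => algebraMap (MvPolynomial (Fin n) ℂ) (Localization.Away w') (f j) := rfl
  change Ideal.span (Set.range fun j => algebraMap (MvPolynomial (Fin n) ℂ)
    (Localization.Away w') (f j)) = Ideal.span (Set.range fun k => frac (nc a w B s).a w' (B.h k))
  rw [← k3, k1, k2]
  congr 2
  funext k
  unfold frac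
  congr 2
  funext t
  change φ2 (B.a t) * v2 = φ (w * star a w (dg B) (B.a t)) * i'
  rw [map_mul, hst _ (dg_a B t), hv2]
  ring

end

/-- **Step C1.** -/
theorem qm_cvcomp : StCvComp := by
  intro Γ n r c r' f h a w hs hcv
  classical
  obtain ⟨S, hS1, hS2⟩ := hcv
  refine ⟨S.biUnion fun B => Finset.univ.image fun s : Fin B.c → Fin n => nc a w B s, ?_, ?_⟩
  · intro A hA
    obtain ⟨B, hB, hA⟩ := Finset.mem_biUnion.1 hA
    obtain ⟨s, -, rfl⟩ := Finset.mem_image.1 hA
    obtain ⟨h1, h2⟩ := hS1 B hB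
    exact ⟨nc_fits hs B h1 s, h2⟩
  · rintro p ⟨hw, s1, hs1⟩ hz
    set α : Fin c → ℂ := fun t => eval p (a t) * (eval p w)⁻¹ with hα
    have hzα : ∀ k, eval α (h k) = 0 := by
      have k1 := hs.map (aeval p : MvPolynomial (Fin n) ℂ →ₐ[ℂ] ℂ) (eval p w)⁻¹ (by
        rw [← coe_aeval_eq_eval] at hw ⊢
        exact mul_inv_cancel₀ hw)
      have k2 : Ideal.span (Set.range fun j => (aeval p : MvPolynomial (Fin n) ℂ →ₐ[ℂ] ℂ) (f j)) =
          ⊥ := by
        rw [Ideal.span_eq_bot]
        rintro _ ⟨j, rfl⟩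
        have := hz j
        rw [← coe_aeval_eq_eval] at this
        exact this
      rw [k2] at k1
      intro k
      have k3 : eval α (h k) ∈ Ideal.span (Set.range fun k =>
          aeval (fun t => (aeval p : MvPolynomial (Fin n) ℂ →ₐ[ℂ] ℂ) (a t) * (eval p w)⁻¹)
            (h k)) := Ideal.subset_span ⟨k, by
          rw [← coe_aeval_eq_eval]
          rfl⟩
      rw [← k1] at k3
      exact (Ideal.mem_bot).1 k3
    obtain ⟨B, hB, hBw, hBa, hBs⟩ := hS2 α trivial hzα
    set J1 : Matrix (Fin n) (Fin c) ℂ := Matrix.of fun i l =>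
      eval p (pderiv i (a l) * w - a l * pderiv i w) with hJ1
    set J2 : Matrix (Fin c) (Fin B.c) ℂ := Matrix.of fun l t => eval α (pderiv l (B.a t)) with hJ2
    obtain ⟨s, hsd⟩ := minor_mul J1 J2 s1 B.s hs1 hBs
    refine ⟨nc a w B s, Finset.mem_biUnion.2 ⟨B, hB, Finset.mem_image.2
      ⟨s, Finset.mem_univ s, rfl⟩⟩, ?_, ?_, ?_⟩
    · change eval p (w * star a w (dg B) B.w) ≠ 0
      rw [map_mul, eval_star p a w hw (dg B) B.w (dg_w B)]
      exact mul_ne_zero hw (mul_ne_zero (pow_ne_zero _ hw) hBw)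
    · intro t
      change eval p (w * star a w (dg B) (B.a t)) = 0
      rw [map_mul, eval_star p a w hw (dg B) (B.a t) (dg_a B t)]
      have h1 : eval (fun t => eval p (a t) * (eval p w)⁻¹) (B.a t) = 0 := hBa t
      rw [h1, mul_zero, mul_zero]
    · set κ : ℂ := eval p w * (eval p w ^ dg B * (eval p w)⁻¹ ^ 2) with hκ
      have hκ0 : κ ≠ 0 := mul_ne_zero hw (mul_ne_zero (pow_ne_zero _ hw)
        (pow_ne_zero _ (inv_ne_zero hw)))
      have h1 : (Matrix.of fun (u : Fin B.c) (t : Fin B.c) => eval p (pderiv ((nc a w B s).s u)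
          ((nc a w B s).a t))) = κ • (Matrix.of fun u t => (J1 * J2) (s u) t) := by
        ext u t
        rw [Matrix.smul_apply, Matrix.of_apply, Matrix.of_apply, Matrix.mul_apply]
        change eval p (pderiv (s u) (w * star a w (dg B) (B.a t))) = _
        have h2 : eval (fun t => eval p (a t) * (eval p w)⁻¹) (B.a t) = 0 := hBa t
        rw [Derivation.leibniz, smul_eq_mul, smul_eq_mul, map_add, map_mul, map_mul,
          pderiv_star p a w hw (dg B) (B.a t) (dg_a B t) h2 (s u),
          eval_star p a w hw (dg B) (B.a t) (dg_a B t), h2, mul_zero, zero_mul, add_zero,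
          smul_eq_mul, hκ]
        have h3 : ∀ l, J1 (s u) l * J2 l t = eval p (pderiv (s u) (a l) * w - a l *
          pderiv (s u) w) * eval (fun t => eval p (a t) * (eval p w)⁻¹) (pderiv l (B.a t)) :=
          fun l => rfl
        rw [Finset.sum_congr rfl fun l _ => h3 l]
        ring
      change (Matrix.of fun (u : Fin B.c) (t : Fin B.c) => eval p (pderiv ((nc a w B s).s u)
          ((nc a w B s).a t))).det ≠ 0
      rw [h1, Matrix.det_smul]
      exact mul_ne_zero (pow_ne_zero _ hκ0) hsd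

end Pool.Agent.Q16.QM
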