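import Pool.Agent.Q16.QM.Star

set_option autoImplicit false
set_option linter.unusedSectionVars false
set_option linter.unusedVariables false

/-! # Project QM, job C5: covers of families of forms away from the origin -/

namespace Pool.Agent.Q16.QM

open MvPolynomial
open Pool.Agent.Q57.MC (Chart Same frac Same.map)
open Pool.Agent.Q57.QM

section

variable {σ : Type} {S : Type} [CommRing S] [Algebra ℂ S]

/-- the values of a form at proportional points -/
theorem aeval_hom {f : MvPolynomial σ ℂ} {d : ℕ} (hf : f.IsHomogeneous d) (x : σ → S) (v : S) :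
    aeval (fun k => x k * v) f = aeval x f * v ^ d := by
  classical
  rw [aeval_def, aeval_def, eval₂_eq, eval₂_eq, Finset.sum_mul]
  refine Finset.sum_congr rfl fun m hm => ?_
  have h1 : ∑ i ∈ m.support, m i = d := by
    have h2 := hf (mem_support_iff.1 hm)
    rw [← h2, Finsupp.weight_apply, Finsupp.sum]
    refine Finset.sum_congr rfl fun i _ => ?_
    simp
  rw [mul_assoc]
  congr 1
  rw [← h1, ← Finset.prod_pow_eq_pow_sum, ← Finset.prod_mul_distrib]
  exact Finset.prod_congr rfl fun i _ => mul_pow _ _ _

end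

/-- the charts `x_i = 1` -/
theorem same_deh {n r : ℕ} (f : Fin r → MvPolynomial (Fin (n + 1)) ℂ) (d : ℕ)
    (hf : ∀ j, (f j).IsHomogeneous d) (i : Fin (n + 1)) :
    Same f (fun j => dehC i (f j)) (fun t => (X (i.succAbove t) : MvPolynomial (Fin (n + 1)) ℂ))
      (X i) := by
  classical
  set v : Localization.Away (X i : MvPolynomial (Fin (n + 1)) ℂ) :=
    IsLocalization.Away.invSelf (X i : MvPolynomial (Fin (n + 1)) ℂ) with hv
  have hv1 : algebraMap (MvPolynomial (Fin (n + 1)) ℂ)
      (Localization.Away (X i : MvPolynomial (Fin (n + 1)) ℂ)) (X i) * v = 1 :=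
    IsLocalization.Away.mul_invSelf (S := Localization.Away (X i : MvPolynomial (Fin (n + 1)) ℂ)) _
  have hvu : IsUnit v := IsUnit.of_mul_eq_one _ (by rw [mul_comm]; exact hv1)
  have key : ∀ j, frac (fun t => (X (i.succAbove t) : MvPolynomial (Fin (n + 1)) ℂ)) (X i)
      (dehC i (f j)) =
      algebraMap (MvPolynomial (Fin (n + 1)) ℂ)
        (Localization.Away (X i : MvPolynomial (Fin (n + 1)) ℂ)) (f j) * v ^ d := by
    intro j
    unfold frac dehC
    have h1 : ∀ (P : MvPolynomial (Fin (n + 1)) ℂ),
        aeval (fun t => algebraMap (MvPolynomial (Fin (n + 1)) ℂ)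
          (Localization.Away (X i : MvPolynomial (Fin (n + 1)) ℂ)) (X (i.succAbove t)) * v)
          (aeval (i.insertNth (1 : MvPolynomial (Fin n) ℂ) X :
            Fin (n + 1) → MvPolynomial (Fin n) ℂ) P) =
        aeval (fun k => algebraMap (MvPolynomial (Fin (n + 1)) ℂ)
          (Localization.Away (X i : MvPolynomial (Fin (n + 1)) ℂ)) (X k) * v) P := by
      intro P
      induction P using MvPolynomial.induction_on with
      | C a => rw [aeval_C, aeval_C, algebraMap_eq, aeval_C]
      | add P Q hP hQ => rw [map_add, map_add, hP, hQ, map_add]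
      | mul_X P k hP =>
        rw [map_mul, map_mul, hP, map_mul, aeval_X, aeval_X]
        congr 1
        refine Fin.succAboveCases i ?_ (fun t => ?_) k
        · rw [Fin.insertNth_apply_same, map_one]
          exact hv1.symm
        · rw [Fin.insertNth_apply_succAbove, aeval_X]
    rw [h1, aeval_hom (hf j)]
    congr 1
    have h2 : ∀ P : MvPolynomial (Fin (n + 1)) ℂ,
        aeval (fun k => algebraMap (MvPolynomial (Fin (n + 1)) ℂ)
          (Localization.Away (X i : MvPolynomial (Fin (n + 1)) ℂ)) (X k)) P =
        algebraMap (MvPolynomial (Fin (n + 1)) ℂ)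
          (Localization.Away (X i : MvPolynomial (Fin (n + 1)) ℂ)) P := by
      intro P
      have h3 : (aeval (fun k => algebraMap (MvPolynomial (Fin (n + 1)) ℂ)
          (Localization.Away (X i : MvPolynomial (Fin (n + 1)) ℂ)) (X k)) :
            MvPolynomial (Fin (n + 1)) ℂ →ₐ[ℂ] _) = IsScalarTower.toAlgHom ℂ
              (MvPolynomial (Fin (n + 1)) ℂ)
              (Localization.Away (X i : MvPolynomial (Fin (n + 1)) ℂ)) := by
        apply MvPolynomial.algHom_ext
        intro k
        rw [aeval_X]
        rfl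
      rw [h3]
      rfl
    exact h2 (f j)
  change Ideal.span (Set.range fun j => algebraMap (MvPolynomial (Fin (n + 1)) ℂ)
    (Localization.Away (X i : MvPolynomial (Fin (n + 1)) ℂ)) (f j)) =
    Ideal.span (Set.range fun k => frac (fun t => (X (i.succAbove t) :
      MvPolynomial (Fin (n + 1)) ℂ)) (X i) (dehC i (f k)))
  apply le_antisymm
  · refine Ideal.span_le.2 ?_
    rintro _ ⟨j, rfl⟩
    have h1 : frac (fun t => (X (i.succAbove t) : MvPolynomial (Fin (n + 1)) ℂ)) (X i)
      (dehC i (f j)) ∈ Ideal.span (Set.range fun k => frac (fun t => (X (i.succAbove t) :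
        MvPolynomial (Fin (n + 1)) ℂ)) (X i) (dehC i (f k))) :=
      Ideal.subset_span ⟨j, rfl⟩
    rw [key j] at h1
    exact (Ideal.mul_unit_mem_iff_mem _ (hvu.pow d)).1 h1
  · refine Ideal.span_le.2 ?_
    rintro _ ⟨j, rfl⟩
    change frac (fun t => (X (i.succAbove t) : MvPolynomial (Fin (n + 1)) ℂ)) (X i)
      (dehC i (f j)) ∈ Ideal.span _
    rw [key j]
    exact Ideal.mul_mem_right _ _ (Ideal.subset_span ⟨j, rfl⟩)

/-- **Step C5.** -/
theorem qm_cvforms : StCvComp → StCvForms := by
  intro hC Γ n r f d hf hcv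
  classical
  have h1 : ∀ i : Fin (n + 1), Cv Γ f fun p => p i ≠ 0 := by
    intro i
    refine cv_mono (hC Γ f (fun j => dehC i (f j)) (fun t => X (i.succAbove t)) (X i)
      (same_deh f d hf i) (hcv i)) fun p hp => ⟨by rw [eval_X]; exact hp, i.succAbove, ?_⟩
    have h2 : (Matrix.of fun u t => eval p (pderiv (i.succAbove u) (X (i.succAbove t)) * X i -
        X (i.succAbove t) * pderiv (i.succAbove u) (X i))) =
        Matrix.diagonal fun _ : Fin n => p i := by
      ext u t
      rw [Matrix.of_apply, Matrix.diagonal_apply, pderiv_X, pderiv_X, map_sub, map_mul, map_mul,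
        eval_X, eval_X, Pi.single_eq_of_ne (Fin.succAbove_ne i u).symm, map_zero, mul_zero,
        sub_zero]
      by_cases hut : u = t
      · subst hut
        rw [Pi.single_eq_same, map_one, one_mul, if_pos rfl]
      · rw [Pi.single_eq_of_ne, map_zero, zero_mul, if_neg hut]
        intro h
        exact hut (Fin.succAbove_right_injective h).symm
    rw [h2, Matrix.det_diagonal]
    exact Finset.prod_ne_zero_iff.2 fun _ _ => hp
  exact cv_mono (cv_iUnion h1) fun p hp => Function.ne_iff.1 hp

end Pool.Agent.Q16.QM
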