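import Pool.Agent.Q16.QM.Star

set_option autoImplicit false
set_option linter.unusedSectionVars false
set_option linter.unusedVariables false

/-! # Project QM, job S1: surfaces of degree one in one of the variables -/

namespace Pool.Agent.Q16.QM

open MvPolynomial
open Pool.Agent.Q57.MC (Chart Same frac Same.map)
open Pool.Agent.Q57.MD (sumF)
open Pool.Agent.Q57.QM

/-! ### The trivial chart of `x ^ m` -/

/-- the trivial chart -/
noncomputable def tc (m : ℕ) : Chart (Fin 1) where
  c := 1
  r := 1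
  a := fun t => X t
  w := 1
  s := fun t => t
  h := fun _ => X 0 ^ m

theorem cv_pow {Γ : ∀ n r : ℕ, (Fin r → MvPolynomial (Fin n) ℂ) → Prop}
    (hΓ : Γ 1 1 fun _ => (X 0 ^ 1 : MvPolynomial (Fin 1) ℂ)) :
    Cv Γ (fun _ : Fin 1 => (X 0 ^ 1 : MvPolynomial (Fin 1) ℂ)) fun _ => True := by
  classical
  refine ⟨{tc 1}, fun A hA => ?_, fun p _ hz => ?_⟩
  · obtain rfl := Finset.mem_singleton.1 hA
    refine ⟨?_, hΓ⟩
    change Ideal.span (Set.range fun _ : Fin 1 => algebraMap (MvPolynomial (Fin 1) ℂ)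
      (Localization.Away (1 : MvPolynomial (Fin 1) ℂ)) (X 0 ^ 1)) =
      Ideal.span (Set.range fun _ : Fin 1 => frac (fun t : Fin 1 => (X t : MvPolynomial (Fin 1) ℂ))
        (1 : MvPolynomial (Fin 1) ℂ) (X 0 ^ 1 : MvPolynomial (Fin 1) ℂ))
    congr 2
    funext k
    unfold frac
    have h1 : IsLocalization.Away.invSelf (S := Localization.Away (1 : MvPolynomial (Fin 1) ℂ))
        (1 : MvPolynomial (Fin 1) ℂ) = 1 := by
      have h2 := IsLocalization.Away.mul_invSelf
        (S := Localization.Away (1 : MvPolynomial (Fin 1) ℂ)) (1 : MvPolynomial (Fin 1) ℂ)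
      rwa [map_one, one_mul] at h2
    rw [map_pow, map_pow, aeval_X, h1, mul_one]
  · refine ⟨tc 1, Finset.mem_singleton_self _, ?_, fun (t : Fin 1) => ?_, ?_⟩
    · change eval p (1 : MvPolynomial (Fin 1) ℂ) ≠ 0
      rw [map_one]
      exact one_ne_zero
    · change eval p (X t : MvPolynomial (Fin 1) ℂ) = 0
      have h1 := hz 0
      rw [map_pow, eval_X, pow_one] at h1
      rw [eval_X]
      have h2 : t = 0 := Subsingleton.elim _ _
      rw [h2]
      exact h1
    · change (Matrix.of fun (u t : Fin 1) => eval p (pderiv u (X t : MvPolynomial (Fin 1) ℂ))).det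
        ≠ 0
      rw [Matrix.det_fin_one, Matrix.of_apply, pderiv_X_self, map_one]
      exact one_ne_zero

/-! ### The substitution -/

section

variable {r : ℕ} (f : Fin r → MvPolynomial (Fin 3) ℂ) (L N : MvPolynomial (Fin 2) ℂ)

/-- a bound for the degrees -/
noncomputable def dd : ℕ := ∑ j, (f j).totalDegree

theorem dd_le (j : Fin r) : (f j).totalDegree ≤ dd f :=
  Finset.single_le_sum (f := fun j => (f j).totalDegree) (fun _ _ => Nat.zero_le _)
    (Finset.mem_univ j)

/-- the numerators of `(x_0, x_1, -N / L)` -/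
noncomputable def an : Fin 3 → MvPolynomial (Fin 2) ℂ := ![X 0 * L, X 1 * L, -N]

/-- the polynomials `L ^ D f_j(x_0, x_1, - N / L)` -/
noncomputable def Gj (j : Fin r) : MvPolynomial (Fin 2) ℂ := star (an L N) L (dd f) (f j)

variable {f L N}

variable {S : Type} [CommRing S] [Algebra ℂ S]

/-- polynomials at congruent points -/
theorem aeval_sub_mem {σ : Type} (P : MvPolynomial σ ℂ) (x y : σ → S) (I : Ideal S)
    (h : ∀ i, x i - y i ∈ I) : aeval x P - aeval y P ∈ I := by
  rw [← Ideal.Quotient.eq]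
  have h1 : ∀ z : σ → S, Ideal.Quotient.mk I (aeval z P) =
      aeval (fun i => Ideal.Quotient.mk I (z i)) P := by
    intro z
    have h2 : (Ideal.Quotient.mkₐ ℂ I).comp (aeval z : MvPolynomial σ ℂ →ₐ[ℂ] S) =
        aeval (fun i => Ideal.Quotient.mk I (z i)) := by
      apply MvPolynomial.algHom_ext
      intro i
      rw [AlgHom.comp_apply, aeval_X, aeval_X]
      rfl
    rw [← h2]
    rfl
  rw [h1, h1]
  congr 2
  funext i
  exact Ideal.Quotient.eq.2 (h i)

/-- modulo the equation of the surface the `f_j` are the `G_j` up to a unit -/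
theorem sub_mem {i0 : Fin r} (hf : f i0 = X 2 * rename Fin.castSucc L + rename Fin.castSucc N)
    (φ : MvPolynomial (Fin 3) ℂ →ₐ[ℂ] S) (v : S) (hv : φ (rename Fin.castSucc L) * v = 1)
    (j : Fin r) :
    φ (f j) - v ^ dd f * φ (rename Fin.castSucc (Gj f L N j)) ∈ Ideal.span {φ (f i0)} := by
  set φ2 : MvPolynomial (Fin 2) ℂ →ₐ[ℂ] S := φ.comp (rename Fin.castSucc) with hφ2
  have h1 : φ2 (Gj f L N j) = φ2 L ^ dd f * aeval (fun t => φ2 (an L N t) * v) (f j) :=
    star_spec φ2 (an L N) L v hv (dd f) (f j) (dd_le f j)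
  have h2 : φ2 L * v = 1 := hv
  have h3 : v ^ dd f * φ (rename Fin.castSucc (Gj f L N j)) =
      aeval (fun t => φ2 (an L N t) * v) (f j) := by
    change v ^ dd f * φ2 (Gj f L N j) = _
    rw [h1, ← mul_assoc, ← mul_pow, mul_comm v, h2, one_pow, one_mul]
  rw [h3]
  have h4 : φ (f j) = aeval (fun t => φ (X t)) (f j) := by
    have h5 : φ = aeval (fun t => φ (X t)) := by
      apply MvPolynomial.algHom_ext
      intro i
      rw [aeval_X]
    exact congrArg (fun θ : MvPolynomial (Fin 3) ℂ →ₐ[ℂ] S => θ (f j)) h5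
  rw [h4]
  apply aeval_sub_mem
  intro t
  have hc0 : φ2 (X 0) = φ (X 0) := by
    change φ (rename Fin.castSucc (X 0)) = _
    rw [rename_X]
    rfl
  have hc1 : φ2 (X 1) = φ (X 1) := by
    change φ (rename Fin.castSucc (X 1)) = _
    rw [rename_X]
    rfl
  fin_cases t
  · change φ (X 0) - φ2 (X 0 * L) * v ∈ _
    rw [map_mul, hc0, mul_assoc, h2, mul_one, sub_self]
    exact Ideal.zero_mem _
  · change φ (X 1) - φ2 (X 1 * L) * v ∈ _
    rw [map_mul, hc1, mul_assoc, h2, mul_one, sub_self]
    exact Ideal.zero_mem _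
  · change φ (X 2) - φ2 (-N) * v ∈ _
    rw [Ideal.mem_span_singleton]
    refine ⟨v, ?_⟩
    rw [hf, map_add, map_mul, map_neg]
    change φ (X 2) - (- φ2 N) * v = (φ (X 2) * φ2 L + φ2 N) * v
    linear_combination (- φ (X 2)) * h2

/-- the ideal in a ring in which `L` is invertible -/
theorem span_eq {i0 : Fin r} (hf : f i0 = X 2 * rename Fin.castSucc L + rename Fin.castSucc N)
    (φ : MvPolynomial (Fin 3) ℂ →ₐ[ℂ] S) (v : S) (hv : φ (rename Fin.castSucc L) * v = 1) :
    Ideal.span (Set.range fun j => φ (f j)) = Ideal.span (insert (φ (f i0))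
      (Set.range fun j => φ (rename Fin.castSucc (Gj f L N j)))) := by
  have hvu : IsUnit v := IsUnit.of_mul_eq_one _ (by rw [mul_comm]; exact hv)
  apply le_antisymm
  · refine Ideal.span_le.2 ?_
    rintro _ ⟨j, rfl⟩
    have h1 := Ideal.span_mono (Set.singleton_subset_iff.2 (Set.mem_insert (φ (f i0))
      (Set.range fun j => φ (rename Fin.castSucc (Gj f L N j))))) (sub_mem hf φ v hv j)
    have h2 : v ^ dd f * φ (rename Fin.castSucc (Gj f L N j)) ∈ Ideal.span (insert (φ (f i0))
      (Set.range fun j => φ (rename Fin.castSucc (Gj f L N j)))) :=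
      Ideal.mul_mem_left _ _ (Ideal.subset_span (Set.mem_insert_of_mem _ ⟨j, rfl⟩))
    have h3 := Ideal.add_mem _ h1 h2
    rwa [sub_add_cancel] at h3
  · refine Ideal.span_le.2 ?_
    have hm : ∀ j, φ (f j) ∈ Ideal.span (Set.range fun j => φ (f j)) :=
      fun j => Ideal.subset_span ⟨j, rfl⟩
    intro x hx
    rcases Set.mem_insert_iff.1 hx with rfl | ⟨j, rfl⟩
    · exact hm i0
    · have h1 := (Ideal.span_singleton_le_iff_mem _).2 (hm i0) (sub_mem hf φ v hv j)
      have h2 := Ideal.sub_mem _ (hm j) h1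
      rw [sub_sub_cancel] at h2
      exact (Ideal.unit_mul_mem_iff_mem _ (hvu.pow _)).1 h2

end

/-- a chart for which the functions are polynomials, with a power of the denominator -/
theorem eval_mul_w {n : ℕ} (p : Fin n → ℂ) (g w : MvPolynomial (Fin n) ℂ) (i : Fin n) :
    eval p (pderiv i (g * w) * w - g * w * pderiv i w) = eval p w ^ 2 * eval p (pderiv i g) := by
  rw [Derivation.leibniz, smul_eq_mul, smul_eq_mul]
  simp only [map_sub, map_add, map_mul]
  ring

/-- **Step S1.** -/
theorem qm_cvlin : StCvComp → StCvPlane → StCvSum → StCvLin := by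
  intro hC hPl hSu Γ hΓ r f i0 L N hf
  classical
  set w : MvPolynomial (Fin 3) ℂ := rename Fin.castSucc L with hw
  have hpow := cv_pow (Γ := Γ) (hΓ.pow 1 le_rfl)
  set φ : MvPolynomial (Fin 3) ℂ →ₐ[ℂ] Localization.Away w :=
    IsScalarTower.toAlgHom ℂ (MvPolynomial (Fin 3) ℂ) (Localization.Away w) with hφ
  set v : Localization.Away w := IsLocalization.Away.invSelf w with hv
  have hv1 : φ w * v = 1 := IsLocalization.Away.mul_invSelf (S := Localization.Away w) w
  have hspan := span_eq hf φ v hv1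
  have hpd : pderiv 2 (f i0) = w := by
    have h1 : ∀ P : MvPolynomial (Fin 2) ℂ, pderiv (2 : Fin 3) (rename Fin.castSucc P) = 0 := by
      intro P
      apply pderiv_eq_zero_of_notMem_vars
      intro h
      obtain ⟨i, -, hi⟩ := Finset.mem_image.1 (vars_rename _ _ h)
      fin_cases i <;> simp [Fin.ext_iff] at hi
    rw [hf, map_add, Derivation.leibniz, h1, h1, smul_zero, zero_add, add_zero, pderiv_X_self,
      smul_eq_mul, mul_one]
  by_cases hG : ∃ j, Gj f L N j ≠ 0
  · -- the general case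
    have hcv := hSu Γ hΓ.sum (fun _ : Fin 1 => (X 0 ^ 1 : MvPolynomial (Fin 1) ℂ)) (Gj f L N) hpow
      (hPl Γ hΓ.plane hΓ.pow (Gj f L N) hG)
    set a : Fin (1 + 2) → MvPolynomial (Fin 3) ℂ :=
      Fin.append (fun _ : Fin 1 => f i0 * w) (fun i : Fin 2 => X i.castSucc * w) with ha
    have hsame : Same f (sumF (fun _ : Fin 1 => (X 0 ^ 1 : MvPolynomial (Fin 1) ℂ)) (Gj f L N))
        a w := by
      have e1 : ∀ i : Fin 1, frac a w (sumF (fun _ : Fin 1 => (X 0 ^ 1 : MvPolynomial (Fin 1) ℂ))
          (Gj f L N) (Fin.castAdd r i)) = φ (f i0) := by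
        intro i
        unfold frac sumF
        rw [finSumFinEquiv_symm_apply_castAdd, Sum.elim_inl, map_pow, map_pow, rename_X, aeval_X,
          pow_one, ha, Fin.append_left]
        change φ (f i0 * w) * v = _
        rw [map_mul, mul_assoc, hv1, mul_one]
      have e2 : ∀ j : Fin r, frac a w (sumF (fun _ : Fin 1 => (X 0 ^ 1 :
          MvPolynomial (Fin 1) ℂ)) (Gj f L N) (Fin.natAdd 1 j)) =
          φ (rename Fin.castSucc (Gj f L N j)) := by
        intro j
        unfold frac sumF
        rw [finSumFinEquiv_symm_apply_natAdd, Sum.elim_inr, aeval_rename]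
        have h5 : (aeval ((fun t => algebraMap (MvPolynomial (Fin 3) ℂ) (Localization.Away w)
            (a t) * IsLocalization.Away.invSelf w) ∘ Fin.natAdd 1) :
              MvPolynomial (Fin 2) ℂ →ₐ[ℂ] Localization.Away w) =
            φ.comp (rename Fin.castSucc) := by
          apply MvPolynomial.algHom_ext
          intro i
          rw [aeval_X, AlgHom.comp_apply, rename_X, Function.comp_apply, ha, Fin.append_right]
          change φ (X i.castSucc * w) * v = _
          rw [map_mul, mul_assoc, hv1, mul_one]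
        rw [h5]
        rfl
      change Ideal.span (Set.range fun j => φ (f j)) = _
      rw [hspan]
      congr 1
      ext x
      rw [Set.mem_insert_iff, Set.mem_range, Set.mem_range]
      constructor
      · rintro (rfl | ⟨j, rfl⟩)
        · exact ⟨Fin.castAdd r 0, e1 0⟩
        · exact ⟨Fin.natAdd 1 j, e2 j⟩
      · rintro ⟨k, rfl⟩
        refine Fin.addCases (fun i => ?_) (fun i => ?_) k
        · exact Or.inl (e1 i)
        · exact Or.inr ⟨i, (e2 i).symm⟩
    refine cv_mono (hC Γ f _ a w hsame hcv) fun p hp => ⟨hp, (![2, 0, 1] : Fin 3 → Fin 3), ?_⟩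
    have h3 : a = (![f i0 * w, X 0 * w, X 1 * w] : Fin 3 → MvPolynomial (Fin 3) ℂ) := by
      funext t
      refine Fin.addCases (fun i => ?_) (fun i => ?_) t
      · rw [ha, Fin.append_left]
        fin_cases i
        rfl
      · rw [ha, Fin.append_right]
        fin_cases i <;> rfl
    have h4 : (Matrix.of fun (u t : Fin 3) => eval p (pderiv ((![2, 0, 1] : Fin 3 → Fin 3) u)
        ((![f i0 * w, X 0 * w, X 1 * w] : Fin 3 → MvPolynomial (Fin 3) ℂ) t) * w -
        (![f i0 * w, X 0 * w, X 1 * w] : Fin 3 → MvPolynomial (Fin 3) ℂ) t *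
          pderiv ((![2, 0, 1] : Fin 3 → Fin 3) u) w)) = (eval p w ^ 2) • (Matrix.of
        fun (u t : Fin 3) => eval p (pderiv ((![2, 0, 1] : Fin 3 → Fin 3) u)
          ((![f i0, X 0, X 1] : Fin 3 → MvPolynomial (Fin 3) ℂ) t))) := by
      ext u t
      rw [Matrix.smul_apply, Matrix.of_apply, Matrix.of_apply, smul_eq_mul]
      fin_cases t
      · exact eval_mul_w p (f i0) w _
      · exact eval_mul_w p (X 0) w _
      · exact eval_mul_w p (X 1) w _
    have h5 : (Matrix.of fun (u t : Fin 3) => eval p (pderiv ((![2, 0, 1] : Fin 3 → Fin 3) u)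
          ((![f i0, X 0, X 1] : Fin 3 → MvPolynomial (Fin 3) ℂ) t))).det = eval p w := by
      rw [Matrix.det_fin_three]
      simp [hpd, pderiv_X]
    have h6 : (Matrix.of fun (u t : Fin 3) => eval p (pderiv ((![2, 0, 1] : Fin 3 → Fin 3) u)
        ((![f i0 * w, X 0 * w, X 1 * w] : Fin 3 → MvPolynomial (Fin 3) ℂ) t) * w -
        (![f i0 * w, X 0 * w, X 1 * w] : Fin 3 → MvPolynomial (Fin 3) ℂ) t *
          pderiv ((![2, 0, 1] : Fin 3 → Fin 3) u) w)).det ≠ 0 := by
      rw [h4, Matrix.det_smul, h5]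
      exact mul_ne_zero (pow_ne_zero _ (pow_ne_zero _ hp)) hp
    rw [h3]
    exact h6
  · -- the surface itself
    push Not at hG
    have hsame : Same f (fun _ : Fin 1 => (X 0 ^ 1 : MvPolynomial (Fin 1) ℂ))
        (fun _ : Fin 1 => f i0 * w) w := by
      change Ideal.span (Set.range fun j => φ (f j)) = _
      rw [hspan]
      have e1 : frac (fun _ : Fin 1 => f i0 * w) w (X 0 ^ 1 : MvPolynomial (Fin 1) ℂ) =
          φ (f i0) := by
        unfold frac
        rw [map_pow, aeval_X, pow_one]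
        change φ (f i0 * w) * v = _
        rw [map_mul, mul_assoc, hv1, mul_one]
      apply le_antisymm
      · refine Ideal.span_le.2 ?_
        intro x hx
        rcases Set.mem_insert_iff.1 hx with rfl | ⟨j, rfl⟩
        · exact Ideal.subset_span ⟨0, e1⟩
        · change φ (rename Fin.castSucc (Gj f L N j)) ∈ Ideal.span _
          rw [hG j, map_zero, map_zero]
          exact Ideal.zero_mem _
      · refine Ideal.span_le.2 ?_
        rintro _ ⟨j, rfl⟩
        exact Ideal.subset_span (Set.mem_insert_iff.2 (Or.inl e1))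
    refine cv_mono (hC Γ f _ _ w hsame hpow) fun p hp => ⟨hp, fun _ => 2, ?_⟩
    rw [Matrix.det_fin_one, Matrix.of_apply, eval_mul_w, hpd]
    exact mul_ne_zero (pow_ne_zero _ hp) hp

end Pool.Agent.Q16.QM
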