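import Pool.Agent.Q57.QM.Stm
import Pool.Agent.Q57.MC.Frac

set_option autoImplicit false
set_option linter.unusedSectionVars false
set_option linter.unusedVariables false

/-! # Covers by charts: substitution of fractions, the chain rule, unions -/

namespace Pool.Agent.Q16.QM

open MvPolynomial
open Pool.Agent.Q57.MC (Chart Same frac)
open Pool.Agent.Q57.QM

/-! ### Substitution of fractions -/

section

variable {σ : Type} {c : ℕ}

/-- `w ^ D * q(a / w)` -/
noncomputable def star (a : Fin c → MvPolynomial σ ℂ) (w : MvPolynomial σ ℂ) (D : ℕ)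
    (q : MvPolynomial (Fin c) ℂ) : MvPolynomial σ ℂ :=
  ∑ m ∈ q.support, C (coeff m q) * w ^ (D - ∑ t, m t) * ∏ t, a t ^ (m t)

theorem star_spec {S : Type} [CommRing S] [Algebra ℂ S] (φ : MvPolynomial σ ℂ →ₐ[ℂ] S)
    (a : Fin c → MvPolynomial σ ℂ) (w : MvPolynomial σ ℂ) (v : S) (hv : φ w * v = 1) (D : ℕ)
    (q : MvPolynomial (Fin c) ℂ) (hq : q.totalDegree ≤ D) :
    φ (star a w D q) = φ w ^ D * aeval (fun t => φ (a t) * v) q := by
  unfold star
  rw [map_sum, aeval_def, eval₂_eq', Finset.mul_sum]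
  refine Finset.sum_congr rfl fun m hm => ?_
  have h1 : ∑ t, m t ≤ D := by
    have h2 := le_totalDegree hm
    rw [Finsupp.sum_fintype _ _ (fun _ => rfl)] at h2
    exact h2.trans hq
  rw [map_mul, map_mul, map_pow, map_prod]
  have h3 : φ (C (coeff m q)) = algebraMap ℂ S (coeff m q) := φ.commutes _
  have h4 : ∏ t, (φ (a t) * v) ^ m t = (∏ t, φ (a t) ^ m t) * v ^ ∑ t, m t := by
    rw [← Finset.prod_pow_eq_pow_sum, ← Finset.prod_mul_distrib]
    exact Finset.prod_congr rfl fun t _ => mul_pow _ _ _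
  have h5 : φ w ^ D = φ w ^ (D - ∑ t, m t) * φ w ^ ∑ t, m t := by
    rw [← pow_add, Nat.sub_add_cancel h1]
  have h6 : φ w ^ (∑ t, m t) * v ^ (∑ t, m t) = 1 := by rw [← mul_pow, hv, one_pow]
  rw [h3, h4, h5]
  have h7 : ∏ t, φ (a t ^ m t) = ∏ t, φ (a t) ^ m t :=
    Finset.prod_congr rfl fun t _ => map_pow _ _ _
  rw [h7]
  linear_combination (- (algebraMap ℂ S (coeff m q) * φ w ^ (D - ∑ t, m t) *
    ∏ t, φ (a t) ^ m t)) * h6

theorem eval_star (p : σ → ℂ) (a : Fin c → MvPolynomial σ ℂ) (w : MvPolynomial σ ℂ)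
    (hw : eval p w ≠ 0) (D : ℕ) (q : MvPolynomial (Fin c) ℂ) (hq : q.totalDegree ≤ D) :
    eval p (star a w D q) = eval p w ^ D * eval (fun t => eval p (a t) * (eval p w)⁻¹) q := by
  have h1 := star_spec (aeval p : MvPolynomial σ ℂ →ₐ[ℂ] ℂ) a w (eval p w)⁻¹ (by
    rw [← coe_aeval_eq_eval] at hw ⊢
    exact mul_inv_cancel₀ hw) D q hq
  rw [← coe_aeval_eq_eval, ← coe_aeval_eq_eval]
  exact h1

end

/-! ### Dual numbers and the chain rule -/

section

open scoped DualNumber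

variable {σ : Type} [Fintype σ] [DecidableEq σ] {c : ℕ}

theorem aeval_dual (P : MvPolynomial σ ℂ) (x y : σ → ℂ) :
    aeval (fun j => algebraMap ℂ ℂ[ε] (x j) + algebraMap ℂ ℂ[ε] (y j) * DualNumber.eps) P =
      algebraMap ℂ ℂ[ε] (eval x P) +
        algebraMap ℂ ℂ[ε] (∑ j, eval x (pderiv j P) * y j) * DualNumber.eps := by
  induction P using MvPolynomial.induction_on with
  | C a =>
    rw [aeval_C, eval_C]
    have h1 : ∀ j : σ, eval x (pderiv j (C a)) * y j = 0 := by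
      intro j
      rw [pderiv_C, map_zero, zero_mul]
    rw [Finset.sum_congr rfl fun j _ => h1 j, Finset.sum_const_zero, map_zero, zero_mul, add_zero]
  | add P Q hP hQ =>
    rw [map_add, hP, hQ, map_add, map_add]
    have h1 : ∀ j : σ, eval x (pderiv j (P + Q)) * y j =
        eval x (pderiv j P) * y j + eval x (pderiv j Q) * y j := by
      intro j
      rw [map_add, map_add, add_mul]
    rw [Finset.sum_congr rfl fun j _ => h1 j, Finset.sum_add_distrib, map_add]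
    ring
  | mul_X P i hP =>
    rw [map_mul, hP, aeval_X, map_mul, eval_X, map_mul]
    have h1 : ∀ j : σ, eval x (pderiv j (P * X i)) * y j =
        x i * (eval x (pderiv j P) * y j) + eval x P * (if j = i then y i else 0) := by
      intro j
      rw [Derivation.leibniz, smul_eq_mul, smul_eq_mul, pderiv_X, map_add, map_mul, map_mul, eval_X]
      by_cases hji : j = i
      · subst hji
        rw [if_pos rfl, Pi.single_eq_same, map_one]
        ring
      · rw [if_neg hji, Pi.single_eq_of_ne (fun h => hji h.symm), map_zero]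
        ring
    rw [Finset.sum_congr rfl fun j _ => h1 j, Finset.sum_add_distrib, ← Finset.mul_sum,
      ← Finset.mul_sum, Finset.sum_ite_eq' Finset.univ i, if_pos (Finset.mem_univ i), map_add,
      map_mul, map_mul]
    have h2 : (DualNumber.eps : ℂ[ε]) * DualNumber.eps = 0 := DualNumber.eps_mul_eps
    linear_combination (algebraMap ℂ ℂ[ε] (∑ j, eval x (pderiv j P) * y j) *
      algebraMap ℂ ℂ[ε] (y i)) * h2

theorem fst_alg (a b : ℂ) :
    TrivSqZeroExt.fst (algebraMap ℂ ℂ[ε] a + algebraMap ℂ ℂ[ε] b * DualNumber.eps) = a := by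
  have k1 : ∀ a : ℂ, TrivSqZeroExt.fst (algebraMap ℂ ℂ[ε] a) = a := fun a => rfl
  simp [k1]

theorem snd_alg (a b : ℂ) :
    TrivSqZeroExt.snd (algebraMap ℂ ℂ[ε] a + algebraMap ℂ ℂ[ε] b * DualNumber.eps) = b := by
  have k1 : ∀ a : ℂ, TrivSqZeroExt.fst (algebraMap ℂ ℂ[ε] a) = a := fun a => rfl
  have k2 : ∀ a : ℂ, TrivSqZeroExt.snd (algebraMap ℂ ℂ[ε] a) = 0 := fun a => rfl
  simp [k1, k2]

/-- **The chain rule** at the points where `q(a / w) = 0`. -/
theorem pderiv_star (p : σ → ℂ) (a : Fin c → MvPolynomial σ ℂ) (w : MvPolynomial σ ℂ)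
    (hw : eval p w ≠ 0) (D : ℕ) (q : MvPolynomial (Fin c) ℂ) (hq : q.totalDegree ≤ D)
    (h0 : eval (fun t => eval p (a t) * (eval p w)⁻¹) q = 0) (i : σ) :
    eval p (pderiv i (star a w D q)) = eval p w ^ D * ((eval p w)⁻¹ ^ 2 *
      ∑ l, eval p (pderiv i (a l) * w - a l * pderiv i w) *
        eval (fun t => eval p (a t) * (eval p w)⁻¹) (pderiv l q)) := by
  obtain ⟨φ, hφP⟩ : ∃ φ : MvPolynomial σ ℂ →ₐ[ℂ] ℂ[ε], ∀ P, φ P = algebraMap ℂ ℂ[ε] (eval p P) +
      algebraMap ℂ ℂ[ε] (eval p (pderiv i P)) * DualNumber.eps := by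
    refine ⟨aeval (fun j => algebraMap ℂ ℂ[ε] (p j) +
      algebraMap ℂ ℂ[ε] ((Pi.single i 1 : σ → ℂ) j) * DualNumber.eps), fun P => ?_⟩
    rw [aeval_dual]
    congr 3
    rw [Finset.sum_eq_single i]
    · rw [Pi.single_eq_same, mul_one]
    · intro j _ hj
      rw [Pi.single_eq_of_ne hj, mul_zero]
    · intro h
      exact absurd (Finset.mem_univ i) h
  set W := eval p w with hW
  set W' := eval p (pderiv i w) with hW'
  have h2 : (DualNumber.eps : ℂ[ε]) * DualNumber.eps = 0 := DualNumber.eps_mul_eps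
  have hWi : algebraMap ℂ ℂ[ε] W * algebraMap ℂ ℂ[ε] W⁻¹ = 1 := by
    rw [← map_mul, mul_inv_cancel₀ hw, map_one]
  set v : ℂ[ε] := algebraMap ℂ ℂ[ε] W⁻¹ -
    algebraMap ℂ ℂ[ε] (W' * W⁻¹ ^ 2) * DualNumber.eps with hv
  have hvw : φ w * v = 1 := by
    rw [hφP, hv, map_mul, map_pow]
    linear_combination hWi - (algebraMap ℂ ℂ[ε] W' * algebraMap ℂ ℂ[ε] W⁻¹ * DualNumber.eps) * hWi
      - (algebraMap ℂ ℂ[ε] W' * algebraMap ℂ ℂ[ε] W' * algebraMap ℂ ℂ[ε] W⁻¹ ^ 2) * h2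
  have h3 := star_spec φ a w v hvw D q hq
  have h4 : (fun t => φ (a t) * v) = fun t => algebraMap ℂ ℂ[ε] (eval p (a t) * W⁻¹) +
      algebraMap ℂ ℂ[ε] (W⁻¹ ^ 2 * eval p (pderiv i (a t) * w - a t * pderiv i w)) *
        DualNumber.eps := by
    funext t
    rw [hφP, hv, map_sub, map_mul, map_mul, map_mul, map_mul, map_pow, map_mul, map_sub, map_mul,
      map_mul, ← hW, ← hW']
    linear_combination (- algebraMap ℂ ℂ[ε] (eval p (pderiv i (a t))) *
      algebraMap ℂ ℂ[ε] W⁻¹ * DualNumber.eps) * hWi -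
      (algebraMap ℂ ℂ[ε] (eval p (pderiv i (a t))) * algebraMap ℂ ℂ[ε] W' *
        algebraMap ℂ ℂ[ε] W⁻¹ ^ 2) * h2
  rw [h4, aeval_dual, h0, hφP, map_zero, zero_add] at h3
  have h5 := congrArg TrivSqZeroExt.snd h3
  rw [snd_alg] at h5
  rw [h5]
  have k1 : ∀ a : ℂ, TrivSqZeroExt.fst (algebraMap ℂ ℂ[ε] a) = a := fun a => rfl
  have k2 : ∀ a : ℂ, TrivSqZeroExt.snd (algebraMap ℂ ℂ[ε] a) = 0 := fun a => rfl
  have h6 : ∀ (x : ℂ[ε]) (b : ℂ), TrivSqZeroExt.snd (x * (algebraMap ℂ ℂ[ε] b * DualNumber.eps)) =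
      TrivSqZeroExt.fst x * b := by
    intro x b
    simp [k1, k2]
  rw [h6]
  have h7 : TrivSqZeroExt.fst (φ w ^ D) = W ^ D := by
    rw [TrivSqZeroExt.fst_pow, hφP, fst_alg]
  rw [h7]
  congr 1
  rw [Finset.mul_sum]
  refine Finset.sum_congr rfl fun l _ => ?_
  ring

end

/-! ### Unions of covers -/

section

variable {Γ : ∀ n r : ℕ, (Fin r → MvPolynomial (Fin n) ℂ) → Prop} {n r : ℕ}
  {f : Fin r → MvPolynomial (Fin n) ℂ}

theorem cv_mono {P Q : (Fin n → ℂ) → Prop} (h : Cv Γ f P) (hPQ : ∀ p, Q p → P p) : Cv Γ f Q := by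
  obtain ⟨S, h1, h2⟩ := h
  exact ⟨S, h1, fun p hp => h2 p (hPQ p hp)⟩

theorem cv_iUnion {ι : Type} [Finite ι] {P : ι → (Fin n → ℂ) → Prop} (h : ∀ i, Cv Γ f (P i)) :
    Cv Γ f fun p => ∃ i, P i p := by
  classical
  have := Fintype.ofFinite ι
  choose S h1 h2 using h
  refine ⟨Finset.univ.biUnion S, fun A hA => ?_, fun p hp hz => ?_⟩
  · obtain ⟨i, -, hi⟩ := Finset.mem_biUnion.1 hA
    exact h1 i A hi
  · obtain ⟨i, hi⟩ := hp
    obtain ⟨A, hA, hm⟩ := h2 i p hi hz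
    exact ⟨A, Finset.mem_biUnion.2 ⟨i, Finset.mem_univ i, hA⟩, hm⟩

end

end Pool.Agent.Q16.QM
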